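import Mathlib
import Pool.Agent.H1.PdBz

set_option autoImplicit false

namespace Pool.Agent.Results.MP_090c48_co.No

open Finset Pool.Agent.H1.Pd

section Defs
variable {V : Type} [Fintype V] [DecidableEq V]

/-- chromatic number of the subgraph of `G` induced on `S` -/
noncomputable def chi (G : SimpleGraph V) (S : Finset V) : ℕ :=
  sInf {k | ∃ c : V → ℕ, (∀ x ∈ S, c x < k) ∧ ∀ x ∈ S, ∀ y ∈ S, G.Adj x y → c x ≠ c y}

/-- clique number of the subgraph of `G` induced on `S` -/
noncomputable def omega (G : SimpleGraph V) (S : Finset V) : ℕ :=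
  sSup {k | ∃ T ⊆ S, G.IsNClique k T}

/-- the subgraph induced on `A` is perfect -/
def Perfect (G : SimpleGraph V) (A : Finset V) : Prop :=
  ∀ S ⊆ A, chi G S = omega G S

/-- the subgraph induced on `W` is perfectly divisible -/
def PD (G : SimpleGraph V) (W : Finset V) : Prop :=
  ∀ S ⊆ W, (∃ x ∈ S, ∃ y ∈ S, G.Adj x y) →
    ∃ A ⊆ S, Perfect G A ∧ omega G (S \ A) < omega G S

/-- minimally non-perfectly divisible -/
def MNPD (G : SimpleGraph V) : Prop :=
  ¬ PD G univ ∧ ∀ W : Finset V, W ≠ univ → PD G W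

/-- the neighbourhood of `v` is the union of two cliques -/
def Bisimplicial (G : SimpleGraph V) (v : V) : Prop :=
  ∃ K L : Set V, G.IsClique K ∧ G.IsClique L ∧ G.neighborSet v = K ∪ L

def Tri (G : SimpleGraph V) (S : Finset V) : Prop :=
  ∃ x ∈ S, ∃ y ∈ S, ∃ z ∈ S, G.Adj x y ∧ G.Adj x z ∧ G.Adj y z

theorem chi_le {G : SimpleGraph V} {S : Finset V} {k : ℕ} (c : V → ℕ) (h1 : ∀ x ∈ S, c x < k)
    (h2 : ∀ x ∈ S, ∀ y ∈ S, G.Adj x y → c x ≠ c y) : chi G S ≤ k :=
  Nat.sInf_le ⟨c, h1, h2⟩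

theorem chi_spec (G : SimpleGraph V) (S : Finset V) :
    ∃ c : V → ℕ, (∀ x ∈ S, c x < chi G S) ∧ ∀ x ∈ S, ∀ y ∈ S, G.Adj x y → c x ≠ c y := by
  have : {k | ∃ c : V → ℕ, (∀ x ∈ S, c x < k) ∧
      ∀ x ∈ S, ∀ y ∈ S, G.Adj x y → c x ≠ c y}.Nonempty := by
    refine ⟨Fintype.card V, fun x => (Fintype.equivFin V x : ℕ), fun x _ => (Fintype.equivFin V x).2,
      fun x _ y _ h e => h.ne ?_⟩
    exact (Fintype.equivFin V).injective (Fin.ext e)
  exact Nat.sInf_mem this

theorem chi_mono {G : SimpleGraph V} {S T : Finset V} (h : S ⊆ T) : chi G S ≤ chi G T := by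
  obtain ⟨c, h1, h2⟩ := chi_spec G T
  exact chi_le c (fun x hx => h1 x (h hx)) (fun x hx y hy => h2 x (h hx) y (h hy))

theorem bdd (G : SimpleGraph V) (S : Finset V) : BddAbove {k | ∃ T ⊆ S, G.IsNClique k T} :=
  ⟨S.card, fun _ ⟨_, hT, hc⟩ => hc.2 ▸ card_le_card hT⟩

theorem le_omega {G : SimpleGraph V} {S T : Finset V} {k : ℕ} (h : T ⊆ S) (hc : G.IsNClique k T) :
    k ≤ omega G S := le_csSup (bdd G S) ⟨T, h, hc⟩

theorem omega_spec (G : SimpleGraph V) (S : Finset V) : ∃ T ⊆ S, G.IsNClique (omega G S) T :=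
  Nat.sSup_mem (s := {k | ∃ T ⊆ S, G.IsNClique k T}) ⟨0, ∅, empty_subset _, by simp⟩ (bdd G S)

theorem omega_le_chi (G : SimpleGraph V) (S : Finset V) : omega G S ≤ chi G S := by
  obtain ⟨T, hT, hc⟩ := omega_spec G S
  obtain ⟨c, h1, h2⟩ := chi_spec G S
  rw [← hc.2, ← card_range (chi G S)]
  apply card_le_card_of_injOn c
  · intro x hx
    simpa using h1 x (hT hx)
  · intro x hx y hy e
    by_contra hne
    exact h2 x (hT hx) y (hT hy) (hc.1 hx hy hne) e

theorem three_le {G : SimpleGraph V} {S : Finset V} (h : Tri G S) : 3 ≤ omega G S := by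
  obtain ⟨x, hx, y, hy, z, hz, h1, h2, h3⟩ := h
  refine le_omega (T := {x, y, z}) ?_ (SimpleGraph.is3Clique_triple_iff.2 ⟨h1, h2, h3⟩)
  intro w hw
  simp only [mem_insert, mem_singleton] at hw
  rcases hw with rfl | rfl | rfl <;> assumption

theorem two_le {G : SimpleGraph V} {S : Finset V} (h : ∃ x ∈ S, ∃ y ∈ S, G.Adj x y) :
    2 ≤ omega G S := by
  obtain ⟨x, hx, y, hy, h1⟩ := h
  refine le_omega (T := {x, y}) ?_ ⟨?_, card_pair h1.ne⟩
  · intro w hw
    simp only [mem_insert, mem_singleton] at hw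
    rcases hw with rfl | rfl <;> assumption
  · simpa using fun _ => h1

theorem tri_of {G : SimpleGraph V} {S : Finset V} (h : 3 ≤ omega G S) : Tri G S := by
  obtain ⟨T, hT, hc⟩ := omega_spec G S
  obtain ⟨U, hU, hU3⟩ := exists_subset_card_eq (s := T) (n := 3) (by rw [hc.2]; exact h)
  have : G.IsNClique 3 U := ⟨hc.1.subset (by exact_mod_cast hU), hU3⟩
  obtain ⟨x, y, z, h1, h2, h3, rfl⟩ := SimpleGraph.is3Clique_iff.1 this
  exact ⟨x, hT (hU (by simp)), y, hT (hU (by simp)), z, hT (hU (by simp)), h1, h2, h3⟩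

theorem four_of {G : SimpleGraph V} {S : Finset V} (h : 4 ≤ omega G S) :
    ∃ w x y z, G.Adj w x ∧ G.Adj w y ∧ G.Adj x y ∧ G.Adj w z ∧ G.Adj x z ∧ G.Adj y z := by
  obtain ⟨T, hT, hc⟩ := omega_spec G S
  obtain ⟨w, hw⟩ : T.Nonempty := card_pos.1 (by rw [hc.2]; omega)
  have h3 : 3 ≤ omega G (T.erase w) := by
    have : G.IsNClique (T.erase w).card (T.erase w) :=
      ⟨hc.1.subset (by exact_mod_cast erase_subset w T), rfl⟩
    have h4 := le_omega (subset_refl _) this
    rw [card_erase_of_mem hw, hc.2] at h4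
    omega
  obtain ⟨x, hx, y, hy, z, hz, h1, h2, h3⟩ := tri_of h3
  rw [mem_erase] at hx hy hz
  exact ⟨w, x, y, z, hc.1 hw hx.2 hx.1.symm, hc.1 hw hy.2 hy.1.symm, h1,
    hc.1 hw hz.2 hz.1.symm, h2, h3⟩

theorem eq_of_two {G : SimpleGraph V} {S : Finset V} (h : chi G S ≤ 2) : chi G S = omega G S := by
  apply le_antisymm _ (omega_le_chi G S)
  by_cases he : ∃ x ∈ S, ∃ y ∈ S, G.Adj x y
  · exact h.trans (two_le he)
  · push Not at he
    rcases S.eq_empty_or_nonempty with rfl | ⟨x, hx⟩
    · exact (chi_le (k := 0) (fun _ => 0) (by simp) (by simp)).trans (Nat.zero_le _)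
    · refine (chi_le (k := 1) (fun _ => 0) (by simp) (fun a ha b hb hab => absurd hab (he a ha b hb))).trans ?_
      exact le_omega (T := {x}) (by simpa using hx) (by simp)

theorem perf_of {G : SimpleGraph V} {A : Finset V} (h3 : chi G A ≤ 3)
    (h : ∀ S ⊆ A, Tri G S ∨ chi G S ≤ 2) : Perfect G A := by
  intro S hS
  rcases h S hS with h | h
  · exact le_antisymm (((chi_mono hS).trans h3).trans (three_le h)) (omega_le_chi G S)
  · exact eq_of_two h

theorem div_of_three {G : SimpleGraph V} {S : Finset V} (h3 : chi G S ≤ 3)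
    (he : ∃ x ∈ S, ∃ y ∈ S, G.Adj x y) :
    ∃ A ⊆ S, Perfect G A ∧ omega G (S \ A) < omega G S := by
  obtain ⟨c, h1, h2⟩ := chi_spec G S
  refine ⟨S.filter (fun x => c x < 2), filter_subset _ _, fun T hT => eq_of_two ?_, ?_⟩
  · exact chi_le c (fun x hx => (mem_filter.1 (hT hx)).2)
      (fun x hx y hy => h2 x (mem_filter.1 (hT hx)).1 y (mem_filter.1 (hT hy)).1)
  · refine lt_of_le_of_lt ((omega_le_chi _ _).trans (chi_le (k := 1) (fun _ => 0) (by simp) ?_))
      (lt_of_lt_of_le (by norm_num) (two_le he))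
    intro x hx y hy hxy _
    simp only [mem_sdiff, mem_filter, not_and, not_lt] at hx hy
    have := h1 x hx.1
    have := h1 y hy.1
    have := hx.2 hx.1
    have := hy.2 hy.1
    have := h2 x hx.1 y hy.1 hxy
    omega

theorem not_perf {G : SimpleGraph V} {A : Finset V} {a b c d e : V} (ha : a ∈ A) (hb : b ∈ A)
    (hc : c ∈ A) (hd : d ∈ A) (he : e ∈ A) (h1 : G.Adj a b) (h2 : G.Adj b c) (h3 : G.Adj c d)
    (h4 : G.Adj d e) (h5 : G.Adj e a) (n1 : ¬ G.Adj a c) (n2 : ¬ G.Adj a d) (n3 : ¬ G.Adj b d)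
    (n4 : ¬ G.Adj b e) (n5 : ¬ G.Adj c e) : ¬ Perfect G A := by
  intro hp
  have hS : ({a, b, c, d, e} : Finset V) ⊆ A := by
    intro w hw
    simp only [mem_insert, mem_singleton] at hw
    rcases hw with rfl | rfl | rfl | rfl | rfl <;> assumption
  have h := hp _ hS
  have ho : ¬ 3 ≤ omega G {a, b, c, d, e} := by
    intro h3'
    obtain ⟨x, hx, y, hy, z, hz, t1, t2, t3⟩ := tri_of h3'
    have m1 : ¬ G.Adj c a := fun h => n1 h.symm
    have m2 : ¬ G.Adj d a := fun h => n2 h.symm
    have m3 : ¬ G.Adj d b := fun h => n3 h.symm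
    have m4 : ¬ G.Adj e b := fun h => n4 h.symm
    have m5 : ¬ G.Adj e c := fun h => n5 h.symm
    simp only [mem_insert, mem_singleton] at hx hy hz
    rcases hx with hx | hx | hx | hx | hx <;> rcases hy with hy | hy | hy | hy | hy <;>
      rcases hz with hz | hz | hz | hz | hz <;> rw [hx] at t1 t2 <;> rw [hy] at t1 t3 <;>
      rw [hz] at t2 t3 <;>
      first
        | exact absurd t1 (G.irrefl)
        | exact absurd t2 (G.irrefl)
        | exact absurd t3 (G.irrefl)
        | contradiction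
  obtain ⟨f, f1, f2⟩ := chi_spec G {a, b, c, d, e}
  have := f1 a (by simp)
  have := f1 b (by simp)
  have := f1 c (by simp)
  have := f1 d (by simp)
  have := f1 e (by simp)
  have := f2 a (by simp) b (by simp) h1
  have := f2 b (by simp) c (by simp) h2
  have := f2 c (by simp) d (by simp) h3
  have := f2 d (by simp) e (by simp) h4
  have := f2 e (by simp) a (by simp) h5
  omega

end Defs


theorem adj_lt {k z : ℕ} (h : (adj k).testBit z = true) : z < 18 := by
  by_contra hz
  have h1 : adj k < 2 ^ 18 := Nat.mod_lt _ (by norm_num)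
  have h2 : adj k < 2 ^ z := lt_of_lt_of_le h1 (Nat.pow_le_pow_right (by norm_num) (by omega))
  rw [Nat.testBit_lt_two_pow h2] at h
  exact absurd h (by simp)

theorem adj_symm : ∀ x y : Fin 18, (adj x).testBit y = true → (adj y).testBit x = true := by
  decide +kernel

theorem adj_irr : ∀ x : Fin 18, ¬ (adj x).testBit x = true := by decide +kernel

def G : SimpleGraph (Fin 18) where
  Adj x y := (adj x).testBit y = true
  symm := ⟨fun x y h => adj_symm x y h⟩
  loopless := ⟨fun x h => adj_irr x h⟩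

instance : DecidableRel G.Adj := fun x y => inferInstanceAs (Decidable ((adj x).testBit y = true))

theorem go_sound (PA PB : ℕ → ℕ → Bool) (L : ℕ → Bool) (W : ℕ) (X : Finset (Fin 18)) (Q : Prop)
    (hW : ∀ i ∈ X, W.testBit i = true)
    (hA : ∀ k A, PA k A = true → (∀ i : Fin 18, A.testBit i = true → i ∉ X) → Q)
    (hB : ∀ (k : Fin 18) (B : ℕ), PB k B = true → k ∈ X →
      (∀ i : Fin 18, B.testBit i = true → i ∈ X) → Q)
    (hL : ∀ B, L B = true → (∀ i ∈ X, B.testBit i = true) → Q) :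
    ∀ k, k ≤ 18 → ∀ A B, go PA PB L W k A B = true →
      (∀ i : Fin 18, A.testBit i = true → i ∉ X) → (∀ i : Fin 18, B.testBit i = true → i ∈ X) →
      (∀ i ∈ X, k ≤ (i : ℕ) → B.testBit i = true) → Q := by
  intro k
  induction k with
  | zero => intro _ A B h _ _ h3; exact hL B h (fun i hi => h3 i hi (Nat.zero_le _))
  | succ k ih =>
    intro hk A B h h1 h2 h3
    simp only [go, Bool.and_eq_true, Bool.or_eq_true, Bool.not_eq_true'] at h
    by_cases hx : (⟨k, hk⟩ : Fin 18) ∈ X
    · rcases h.2 with (h | h) | h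
      · have := hW _ hx
        simp only at this
        rw [h] at this
        exact absurd this (by simp)
      · exact hB ⟨k, hk⟩ B h hx h2
      · refine ih (by omega) A _ h h1 ?_ ?_
        · intro i hi
          rw [Nat.testBit_or, Nat.testBit_two_pow, Bool.or_eq_true, decide_eq_true_eq] at hi
          rcases hi with hi | hi
          · exact h2 i hi
          · have : i = ⟨k, hk⟩ := Fin.ext hi.symm
            rw [this]; exact hx
        · intro i hi hki
          rw [Nat.testBit_or, Nat.testBit_two_pow, Bool.or_eq_true, decide_eq_true_eq]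
          by_cases e : k = i
          · exact Or.inr e
          · exact Or.inl (h3 i hi (by omega))
    · have h1' : ∀ i : Fin 18, (A ||| 2 ^ k).testBit i = true → i ∉ X := by
        intro i hi
        rw [Nat.testBit_or, Nat.testBit_two_pow, Bool.or_eq_true, decide_eq_true_eq] at hi
        rcases hi with hi | hi
        · exact h1 i hi
        · have : i = ⟨k, hk⟩ := Fin.ext hi.symm
          rw [this]; exact hx
      rcases h.1 with h | h
      · exact hA k _ h h1'
      · refine ih (by omega) _ B h h1' h2 ?_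
        intro i hi hki
        by_cases e : k = i
        · have : i = ⟨k, hk⟩ := Fin.ext e.symm
          rw [this] at hi; exact absurd hi hx
        · exact h3 i hi (by omega)

theorem trichk_sound (X : Finset (Fin 18)) (k : Fin 18) (B : ℕ) (h : trichk k B = true)
    (hk : k ∈ X) (hB : ∀ i : Fin 18, B.testBit i = true → i ∈ X) : Tri G X := by
  simp only [trichk, List.any_eq_true, List.mem_range, Bool.and_eq_true, Bool.not_eq_true',
    beq_eq_false_iff_ne, Nat.testBit_and] at h
  obtain ⟨y, hy, ⟨h1, h2⟩, h3⟩ := h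
  obtain ⟨z, hz⟩ := Nat.exists_testBit_of_ne_zero h3
  simp only [Nat.testBit_and, Bool.and_eq_true] at hz
  have hz' := adj_lt hz.1
  exact ⟨k, hk, ⟨y, hy⟩, hB _ h2, ⟨z, hz'⟩, hB _ hz.2.2, h1, hz.2.1, hz.1⟩

def St (I : ℕ) : Prop := ∀ x y : Fin 18, I.testBit x = true → I.testBit y = true → ¬ G.Adj x y

theorem st_add {I k : ℕ} (hk : k < 18) (h : St I) (h0 : adj k &&& I = 0) : St (I ||| 2 ^ k) := by
  have key : ∀ y : Fin 18, I.testBit y = true → ¬ G.Adj ⟨k, hk⟩ y := by
    intro y hy ha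
    have : (adj k &&& I).testBit y = true := by
      rw [Nat.testBit_and, hy, Bool.and_true]; exact ha
    rw [h0] at this
    simp at this
  intro x y hx hy
  rw [Nat.testBit_or, Nat.testBit_two_pow, Bool.or_eq_true, decide_eq_true_eq] at hx hy
  rcases hx with hx | hx <;> rcases hy with hy | hy
  · exact h x y hx hy
  · have : y = ⟨k, hk⟩ := Fin.ext hy.symm
    rw [this]; exact fun ha => key x hx ha.symm
  · have : x = ⟨k, hk⟩ := Fin.ext hx.symm
    rw [this]; exact key y hy
  · have : x = y := Fin.ext (hx.symm.trans hy)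
    rw [this]; exact G.irrefl

theorem colr_sound (t : Bool) (S : ℕ) : ∀ k, k ≤ 18 → ∀ I J K, colr t S k I J K = true →
    St I → St J → St K → ∃ I' J' K', St I' ∧ St J' ∧ St K' ∧ (t = false → K' = K) ∧
      ∀ i : ℕ, ((S.testBit i = true ∧ i < k) ∨ I.testBit i = true ∨ J.testBit i = true ∨
        K.testBit i = true) →
        I'.testBit i = true ∨ J'.testBit i = true ∨ K'.testBit i = true := by
  intro k
  induction k with
  | zero =>
    intro _ I J K _ h1 h2 h3
    exact ⟨I, J, K, h1, h2, h3, fun _ => rfl, fun i hi => hi.resolve_left (by omega)⟩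
  | succ k ih =>
    intro hk I J K h h1 h2 h3
    have hor : ∀ M i : ℕ, (M ||| 2 ^ k).testBit i = true ↔ M.testBit i = true ∨ k = i := by
      intro M i
      rw [Nat.testBit_or, Nat.testBit_two_pow, Bool.or_eq_true, decide_eq_true_eq]
    unfold colr at h
    split_ifs at h with hS
    · simp only [Bool.or_eq_true, Bool.and_eq_true, beq_iff_eq] at h
      rcases h with (h | h) | h
      · obtain ⟨I', J', K', a1, a2, a3, a4, a5⟩ :=
          ih (by omega) _ _ _ h.2 (st_add (by omega) h1 h.1) h2 h3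
        refine ⟨I', J', K', a1, a2, a3, a4, fun i hi => a5 i ?_⟩
        rw [hor]
        by_cases e : k = i
        · tauto
        · have : i < k + 1 → i < k := by omega
          tauto
      · obtain ⟨I', J', K', a1, a2, a3, a4, a5⟩ :=
          ih (by omega) _ _ _ h.2 h1 (st_add (by omega) h2 h.1) h3
        refine ⟨I', J', K', a1, a2, a3, a4, fun i hi => a5 i ?_⟩
        rw [hor]
        by_cases e : k = i
        · tauto
        · have : i < k + 1 → i < k := by omega
          tauto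
      · obtain ⟨I', J', K', a1, a2, a3, a4, a5⟩ :=
          ih (by omega) _ _ _ h.2 h1 h2 (st_add (by omega) h3 h.1.2)
        refine ⟨I', J', K', a1, a2, a3, fun e => ?_, fun i hi => a5 i ?_⟩
        · rw [e] at h; exact absurd h.1.1 (by simp)
        · rw [hor]
          by_cases e : k = i
          · tauto
          · have : i < k + 1 → i < k := by omega
            tauto
    · obtain ⟨I', J', K', a1, a2, a3, a4, a5⟩ := ih (by omega) _ _ _ h h1 h2 h3
      refine ⟨I', J', K', a1, a2, a3, a4, fun i hi => a5 i ?_⟩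
      by_cases e : k = i
      · subst e; tauto
      · have : i < k + 1 → i < k := by omega
        tauto

theorem st0 : St 0 := fun x _ h => by simp at h

theorem chi_colr (t : Bool) (S : ℕ) (X : Finset (Fin 18)) (h : colr t S 18 0 0 0 = true)
    (hX : ∀ i ∈ X, S.testBit i = true) : chi G X ≤ if t then 3 else 2 := by
  obtain ⟨I, J, K, a1, a2, a3, a4, a5⟩ := colr_sound t S 18 le_rfl 0 0 0 h st0 st0 st0
  have hc : ∀ i ∈ X, I.testBit i = true ∨ J.testBit i = true ∨ K.testBit i = true :=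
    fun i hi => a5 i (Or.inl ⟨hX i hi, i.2⟩)
  refine chi_le (fun i => if I.testBit i = true then 0 else if J.testBit i = true then 1 else 2)
    ?_ ?_
  · intro x hx
    have := hc x hx
    cases t
    · rw [a4 rfl] at this
      simp only [Nat.zero_testBit, Bool.false_eq_true, or_false] at this
      split_ifs <;> simp_all
    · split_ifs <;> simp_all
  · intro x hx y hy hxy
    have hx' := hc x hx
    have hy' := hc y hy
    have b1 := a1 x y
    have b2 := a2 x y
    have b3 := a3 x y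
    split_ifs <;> simp_all

theorem c5chk_sound (X : Finset (Fin 18)) (k A : ℕ) (h : c5chk k A = true)
    (hA : ∀ i : Fin 18, A.testBit i = true → i ∉ X) : ¬ Perfect G (univ \ X) := by
  simp only [c5chk, List.any_eq_true, Bool.and_eq_true, Bool.not_eq_true'] at h
  obtain ⟨c, _, ⟨⟨⟨⟨⟨⟨⟨⟨⟨⟨⟨⟨⟨⟨m1, m2⟩, m3⟩, m4⟩, m0⟩, e1⟩, e2⟩, e3⟩, e4⟩, e0⟩, n1⟩, n2⟩, n3⟩, n4⟩, n5⟩⟩ := h
  have f : ∀ i : Fin 18, A.testBit i = true → i ∈ univ \ X := fun i hi => by simpa using hA i hi
  exact not_perf (G := G) (a := ⟨_, adj_lt e0⟩) (b := ⟨_, adj_lt e1⟩) (c := ⟨_, adj_lt e2⟩)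
    (d := ⟨_, adj_lt e3⟩) (e := ⟨_, adj_lt e4⟩) (f _ m0) (f _ m1) (f _ m2) (f _ m3) (f _ m4)
    e1 e2 e3 e4 e0 (by simpa [G] using n1) (by simpa [G] using n2) (by simpa [G] using n3)
    (by simpa [G] using n4) (by simpa [G] using n5)

theorem k4 : ∀ x a : Fin 18, a ≠ x → ¬ (aM x).testBit a = true → ∀ b : Fin 18, G.Adj a b → b ≠ x →
    ¬ (aM x).testBit b = true → ∀ c : Fin 18, G.Adj a c → G.Adj b c → c ≠ x →
    (aM x).testBit c = true := by decide +kernel

theorem k5 : ∀ w x : Fin 18, G.Adj w x → ∀ y, G.Adj w y → G.Adj x y → ∀ z, G.Adj w z →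
    G.Adj x z → ¬ G.Adj y z := by decide +kernel

theorem full (i : Fin 18) : (2 ^ 18 - 1 : ℕ).testBit i = true := by
  rw [Nat.testBit_two_pow_sub_one]; simp

theorem notPD : ¬ PD G univ := by
  intro h
  obtain ⟨A, _, hp, ho⟩ := h univ (subset_refl _) ⟨17, mem_univ _, 3, mem_univ _, by decide +kernel⟩
  have h3 : omega G univ ≤ 3 := by
    by_contra h4
    obtain ⟨w, x, y, z, a1, a2, a3, a4, a5, a6⟩ := four_of (G := G) (S := univ) (by omega)
    exact k5 w x a1 y a2 a3 z a4 a5 a6
  refine go_sound _ _ _ _ (univ \ A) False (fun i _ => full i) ?_ ?_ ?_ 18 le_rfl 0 0 k1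
    (by simp) (by simp) (fun i _ hi => absurd i.2 (by omega))
  · intro k M h1 h2
    have := c5chk_sound _ k M h1 h2
    simp only [sdiff_sdiff_right_self, inf_eq_inter, univ_inter] at this
    exact this hp
  · intro k B h1 h2 h4
    have := three_le (trichk_sound _ k B h1 h2 h4)
    omega
  · intro B h; simp at h

theorem three (X : Finset (Fin 18)) : Tri G X ∨ chi G X ≤ 3 := by
  refine go_sound _ _ _ _ X _ (fun i _ => full i) ?_ ?_ ?_ 18 le_rfl 0 0 k2
    (by simp) (by simp) (fun i _ hi => absurd i.2 (by omega))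
  · intro k M h; simp at h
  · intro k B h1 h2 h4
    exact Or.inl (trichk_sound _ k B h1 h2 h4)
  · intro B h hB
    exact Or.inr (chi_colr true B X h hB)

theorem perfA (x : Fin 18) (A : Finset (Fin 18)) (hA : ∀ i ∈ A, (aM x).testBit i = true) :
    Perfect G A := by
  refine perf_of (chi_colr true _ A (k3 x).1 hA) (fun X hX => ?_)
  refine go_sound _ _ _ _ X _ (fun i hi => hA i (hX hi)) ?_ ?_ ?_ 18 le_rfl 0 0 (k3 x).2
    (by simp) (by simp) (fun i _ hi => absurd i.2 (by omega))
  · intro k M h; simp at h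
  · intro k B h1 h2 h4
    exact Or.inl (trichk_sound _ k B h1 h2 h4)
  · intro B h hB
    exact Or.inr (chi_colr false B X h hB)

theorem result : ∃ (n : ℕ) (H : SimpleGraph (Fin n)), MNPD H ∧ ∃ v, Bisimplicial H v := by
  refine ⟨18, G, ⟨notPD, fun W hW S hS he => ?_⟩, 17, {12, 3}, {5, 6}, ?_, ?_, ?_⟩
  · obtain ⟨x, hx⟩ : ∃ x, x ∉ W := by
      by_contra h
      exact hW (eq_univ_of_forall (fun x => by_contra fun hx => h ⟨x, hx⟩))
    by_cases ht : Tri G S
    · refine ⟨S.filter (fun i => (aM x).testBit i = true), filter_subset _ _,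
        perfA x _ (fun i hi => (mem_filter.1 hi).2), lt_of_lt_of_le ?_ (three_le ht)⟩
      by_contra h3
      obtain ⟨a, ha, b, hb, c, hc, t1, t2, t3⟩ := tri_of (not_lt.1 h3)
      simp only [mem_sdiff, mem_filter, not_and] at ha hb hc
      have ne : ∀ i ∈ S, i ≠ x := fun i hi e => hx (e ▸ hS hi)
      exact hc.2 hc.1 (k4 x a (ne a ha.1) (ha.2 ha.1) b t1 (ne b hb.1) (hb.2 hb.1) c t2 t3
        (ne c hc.1))
    · exact div_of_three ((three S).resolve_left ht) he
  · rw [SimpleGraph.isClique_pair]; intro _; decide +kernel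
  · rw [SimpleGraph.isClique_pair]; intro _; decide +kernel
  · ext y
    simp only [SimpleGraph.mem_neighborSet, Set.mem_union, Set.mem_insert_iff,
      Set.mem_singleton_iff]
    revert y
    decide +kernel

end Pool.Agent.Results.MP_090c48_co.No
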